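import Mathlib

/-!
# Randomly pivoted Cholesky, `r` steps: definitions and general lemmas
-/

open Matrix Finset

set_option linter.unusedSectionVars false

namespace N838.RPC

variable {n : Type*} [Fintype n] [DecidableEq n]

/-- One elimination step with pivot `s`: `R - R e_s e_sᵀ R / R_{ss}`. -/
noncomputable def elim (R : Matrix n n ℝ) (s : n) : Matrix n n ℝ :=
  Matrix.of fun i j => R i j - R i s * R s j / R s s

/-- The expected trace of the residual after `k` further steps of randomly pivoted Cholesky,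
started with the residual `R`. -/
noncomputable def expTrace : ℕ → Matrix n n ℝ → ℝ
  | 0, R => R.trace
  | k + 1, R =>
      if R.trace = 0 then 0
      else ∑ s, (R s s / R.trace) * expTrace k (elim R s)

/-- `tr (A - [A]_r)`: the sum of all eigenvalues of `A` (with multiplicity, in decreasing order
`eigenvalues₀ 0 ≥ eigenvalues₀ 1 ≥ ...`) but the `r` largest ones. -/
noncomputable def tail {A : Matrix n n ℝ} (hA : A.IsHermitian) (r : ℕ) : ℝ :=
  ∑ i : Fin (Fintype.card n), if r ≤ (i : ℕ) then hA.eigenvalues₀ i else 0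

/-- The quadratic form. -/
def Q (R : Matrix n n ℝ) (y : n → ℝ) : ℝ := y ⬝ᵥ (R *ᵥ y)

theorem elim_apply (R : Matrix n n ℝ) (s i j : n) :
    elim R s i j = R i j - R i s * R s j / R s s := rfl

theorem elim_mulVec (R : Matrix n n ℝ) (s : n) (y : n → ℝ) (i : n) :
    (elim R s *ᵥ y) i = (R *ᵥ y) i - R i s / R s s * (R *ᵥ y) s := by
  simp only [mulVec, dotProduct, elim_apply, Finset.mul_sum]
  rw [← Finset.sum_sub_distrib]
  refine Finset.sum_congr rfl fun j _ => ?_
  ring

theorem Q_elim (R : Matrix n n ℝ) (hsym : ∀ i j, R i j = R j i) (s : n) (y : n → ℝ) :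
    Q (elim R s) y = Q R y - (R *ᵥ y) s ^ 2 / R s s := by
  unfold Q
  simp only [dotProduct, elim_mulVec]
  have h1 : (∑ i, y i * R i s) = (R *ᵥ y) s := by
    simp only [mulVec, dotProduct]
    refine Finset.sum_congr rfl fun j _ => ?_
    rw [hsym j s, mul_comm]
  have h2 : (∑ i, y i * ((R *ᵥ y) i - R i s / R s s * (R *ᵥ y) s))
      = (∑ i, y i * (R *ᵥ y) i) - (∑ i, y i * R i s) * ((R *ᵥ y) s / R s s) := by
    rw [Finset.sum_mul, ← Finset.sum_sub_distrib]
    refine Finset.sum_congr rfl fun j _ => ?_
    ring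
  rw [h2, h1]
  ring

theorem mulVec_add_single (R : Matrix n n ℝ) (y : n → ℝ) (s : n) (c : ℝ) (i : n) :
    (R *ᵥ (y + Pi.single s c)) i = (R *ᵥ y) i + c * R i s := by
  rw [mulVec_add, Pi.add_apply]
  congr 1
  simp [mulVec, dotProduct, Pi.single_apply, mul_comm]

theorem Q_add_single (R : Matrix n n ℝ) (hsym : ∀ i j, R i j = R j i) (s : n) (y : n → ℝ)
    (c : ℝ) : Q R (y + Pi.single s c) = Q R y + 2 * c * (R *ᵥ y) s + c ^ 2 * R s s := by
  unfold Q
  simp only [dotProduct, mulVec_add_single, Pi.add_apply]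
  have h1 : (∑ i, y i * R i s) = (R *ᵥ y) s := by
    simp only [mulVec, dotProduct]
    refine Finset.sum_congr rfl fun j _ => ?_
    rw [hsym j s, mul_comm]
  have h2 : (∑ i, (y i + (Pi.single s c : n → ℝ) i) * ((R *ᵥ y) i + c * R i s))
      = (∑ i, y i * (R *ᵥ y) i) + c * (∑ i, y i * R i s)
        + ∑ i, (Pi.single s c : n → ℝ) i * ((R *ᵥ y) i + c * R i s) := by
    rw [Finset.mul_sum, ← Finset.sum_add_distrib, ← Finset.sum_add_distrib]
    refine Finset.sum_congr rfl fun j _ => ?_
    ring
  have h3 : (∑ i, (Pi.single s c : n → ℝ) i * ((R *ᵥ y) i + c * R i s))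
      = c * ((R *ᵥ y) s + c * R s s) := by
    rw [Finset.sum_eq_single s]
    · simp
    · intro b _ hb
      simp [hb]
    · intro h
      exact absurd (Finset.mem_univ s) h
  rw [h2, h1, h3]
  ring

theorem Q_single (R : Matrix n n ℝ) (s : n) : Q R (Pi.single s 1) = R s s := by
  unfold Q
  simp [mulVec, dotProduct, Pi.single_apply]

/-- symmetric and positive semidefinite -/
structure Psd (R : Matrix n n ℝ) : Prop where
  sym : ∀ i j, R i j = R j i
  nn : ∀ y, 0 ≤ Q R y

theorem Psd.diag {R : Matrix n n ℝ} (h : Psd R) (s : n) : 0 ≤ R s s := by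
  rw [← Q_single R s]; exact h.nn _

theorem Psd.trace {R : Matrix n n ℝ} (h : Psd R) : 0 ≤ R.trace :=
  Finset.sum_nonneg fun i _ => h.diag i

theorem Q_elim_le (R : Matrix n n ℝ) (hsym : ∀ i j, R i j = R j i) (s : n) (hs : 0 < R s s)
    (y : n → ℝ) (c : ℝ) : Q (elim R s) y ≤ Q R (y + Pi.single s c) := by
  rw [Q_elim R hsym, Q_add_single R hsym]
  have h : (2 * c * (R *ᵥ y) s + c ^ 2 * R s s) + (R *ᵥ y) s ^ 2 / R s s
      = (c * R s s + (R *ᵥ y) s) ^ 2 / R s s := by
    field_simp
    ring
  have h2 : 0 ≤ (c * R s s + (R *ᵥ y) s) ^ 2 / R s s := by positivity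
  linarith

theorem Psd.elim {R : Matrix n n ℝ} (h : Psd R) (s : n) (hs : 0 < R s s) :
    Psd (elim R s) := by
  refine ⟨fun i j => ?_, fun y => ?_⟩
  · rw [elim_apply, elim_apply, h.sym i j, h.sym i s, h.sym s j]
    ring
  · have h1 := h.nn (y + Pi.single s (-((R *ᵥ y) s / R s s)))
    rw [Q_add_single R h.sym] at h1
    rw [Q_elim R h.sym]
    have h2 : 2 * (-((R *ᵥ y) s / R s s)) * (R *ᵥ y) s + (-((R *ᵥ y) s / R s s)) ^ 2 * R s s
      = - ((R *ᵥ y) s ^ 2 / R s s) := by
      field_simp
      ring
    linarith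

theorem Psd.row_zero {R : Matrix n n ℝ} (h : Psd R) (s : n) (hs : R s s = 0) (j : n) :
    R s j = 0 := by
  by_contra hne
  have h1 := h.nn (Pi.single j 1 + Pi.single s (-(R j j + 1) / (2 * R s j)))
  rw [Q_add_single R h.sym, Q_single, hs] at h1
  have h2 : (R *ᵥ (Pi.single j 1)) s = R s j := by
    simp [mulVec, dotProduct, Pi.single_apply]
  rw [h2] at h1
  have h3 : 2 * (-(R j j + 1) / (2 * R s j)) * R s j = -(R j j + 1) := by
    field_simp
  rw [h3] at h1
  linarith

theorem expTrace_nonneg (k : ℕ) : ∀ R : Matrix n n ℝ, Psd R → 0 ≤ expTrace k R := by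
  induction k with
  | zero => intro R h; exact h.trace
  | succ k ih =>
    intro R h
    unfold expTrace
    split_ifs with h0
    · exact le_rfl
    · refine Finset.sum_nonneg fun s _ => ?_
      rcases (h.diag s).eq_or_lt with h1 | h1
      · rw [← h1]; simp
      · exact mul_nonneg (div_nonneg h1.le h.trace) (ih _ (h.elim s h1))

/-- `det (R + 1_S)` -/
noncomputable def D (R : Matrix n n ℝ) (S : Finset n) : ℝ :=
  (R + diagonal fun i => if i ∈ S then (1 : ℝ) else 0).det

/-- The state of the elimination after the pivots `S`. -/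
structure St (A : Matrix n n ℝ) (S : Finset n) (R : Matrix n n ℝ) : Prop where
  psd : Psd R
  zero : ∀ s ∈ S, ∀ j, R s j = 0
  le : ∀ y z : n → ℝ, (∀ i, i ∉ S → z i = 0) → Q R y ≤ Q A (y + z)
  pos : 0 < D R S

theorem St.start {A : Matrix n n ℝ} (h : Psd A) (hdet : 0 < A.det) : St A ∅ A := by
  refine ⟨h, by simp, ?_, ?_⟩
  · intro y z hz
    have : z = 0 := by ext i; exact hz i (by simp)
    rw [this, add_zero]
  · unfold D
    simpa using hdet

theorem St.diag_pos {A R : Matrix n n ℝ} {S : Finset n} (h : St A S R) (a : n) (ha : a ∉ S) :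
    0 < R a a := by
  rcases (h.psd.diag a).eq_or_lt with h1 | h1
  · exfalso
    have h2 : D R S = 0 := by
      unfold D
      refine det_eq_zero_of_row_eq_zero a fun j => ?_
      rw [Matrix.add_apply, h.psd.row_zero a h1.symm j]
      by_cases hj : a = j
      · subst hj; simp [ha]
      · simp [diagonal_apply_ne _ hj]
    have := h.pos
    rw [h2] at this
    exact lt_irrefl _ this
  · exact h1

theorem D_elim (R : Matrix n n ℝ) (S : Finset n) (a : n) (ha : a ∉ S) (hne : R a a ≠ 0) :
    D R S = R a a * D (elim R a) (insert a S) := by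
  unfold D
  set u : n → ℝ := fun i => R i a / R a a - (if i = a then 1 else 0) with hu
  set v : n → ℝ := fun j => R a j - (if j = a then 1 else 0) with hv
  set M' : Matrix n n ℝ := elim R a + diagonal fun i => if i ∈ insert a S then (1 : ℝ) else 0
    with hM'
  have hM'apply : ∀ i j, M' i j = (R i j - R i a * R a j / R a a)
      + (if i = j then (if i ∈ insert a S then (1 : ℝ) else 0) else 0) := by
    intro i j
    rw [hM', Matrix.add_apply, elim_apply, diagonal_apply]
  have key : R + diagonal (fun i => if i ∈ S then (1 : ℝ) else 0)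
      = (1 + replicateCol Unit u * replicateRow Unit (Pi.single a (1 : ℝ) : n → ℝ)) * M'
        * (1 + replicateCol Unit (Pi.single a (1 : ℝ) : n → ℝ) * replicateRow Unit v) := by
    ext i j
    have e1 : ∀ k l, ((M' * (1 + replicateCol Unit (Pi.single a (1 : ℝ) : n → ℝ) * replicateRow Unit v) :
        Matrix n n ℝ) k l)
        = M' k l + M' k a * v l := by
      intro k l
      rw [Matrix.mul_add, Matrix.mul_one, Matrix.add_apply, ← Matrix.mul_assoc]
      congr 1
      simp [Matrix.mul_apply, replicateCol, replicateRow, Pi.single_apply]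
    rw [Matrix.mul_assoc, Matrix.add_mul, Matrix.one_mul, Matrix.add_apply, Matrix.add_apply, e1,
      Matrix.mul_assoc]
    have e2 : ∀ (N : Matrix n n ℝ), ((replicateCol Unit u * (replicateRow Unit (Pi.single a (1 : ℝ) : n → ℝ) * N) :
        Matrix n n ℝ) i j)
        = u i * N a j := by
      intro N
      simp [Matrix.mul_apply, replicateCol, replicateRow, Pi.single_apply]
    rw [e2, e1]
    have f1 : M' a a = 1 := by
      rw [hM'apply]
      simp
    have f2 : ∀ k, k ≠ a → M' k a = 0 := by
      intro k hk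
      rw [hM'apply]
      simp [hk]
      field_simp
      ring
    have f3 : ∀ l, l ≠ a → M' a l = 0 := by
      intro l hl
      rw [hM'apply]
      simp [Ne.symm hl]
      field_simp
      ring
    by_cases hi : i = a
    · subst hi
      rw [f1]
      by_cases hj : j = i
      · subst hj
        rw [f1]
        simp only [hu, hv, ha, diagonal_apply, if_true, if_false, div_self hne]
        ring
      · rw [f3 j hj]
        simp only [hu, hv, hj, Ne.symm hj, diagonal_apply, if_true, if_false, div_self hne]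
        ring
    · rw [f2 i hi, f1]
      by_cases hj : j = a
      · subst hj
        rw [f1, f2 i hi]
        simp [hu, hv, hi, hne]
      · rw [f3 j hj, hM'apply]
        simp only [diagonal_apply, hu, hv, hi, hj, Finset.mem_insert, false_or,
          if_false, sub_zero]
        field_simp
        ring
  rw [key, det_mul, det_mul, det_one_add_replicateCol_mul_replicateRow,
    det_one_add_replicateCol_mul_replicateRow]
  have g1 : 1 + (Pi.single a (1 : ℝ)) ⬝ᵥ u = 1 := by
    simp [hu, hne]
  have g2 : 1 + v ⬝ᵥ (Pi.single a (1 : ℝ)) = R a a := by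
    simp [hv]
  rw [g1, g2]
  ring

theorem St.step {A R : Matrix n n ℝ} {S : Finset n} (h : St A S R) (a : n) (ha : a ∉ S) :
    St A (insert a S) (elim R a) := by
  have hp := h.diag_pos a ha
  refine ⟨h.psd.elim a hp, ?_, ?_, ?_⟩
  · intro s hs j
    rw [elim_apply]
    rcases Finset.mem_insert.1 hs with rfl | hs
    · field_simp
      ring
    · rw [h.zero s hs, h.zero s hs]
      simp
  · intro y z hz
    have h1 := Q_elim_le R h.psd.sym a hp y (z a)
    have h2 := h.le (y + Pi.single a (z a)) (z - Pi.single a (z a)) (by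
      intro i hi
      by_cases hia : i = a
      · subst hia; simp
      · simp [hia, hz i (by simp [hia, hi])])
    have h3 : y + Pi.single a (z a) + (z - Pi.single a (z a)) = y + z := by abel
    rw [h3] at h2
    exact h1.trans h2
  · have h1 := D_elim R S a ha hp.ne'
    have h2 := h.pos
    rw [h1] at h2
    exact (mul_pos_iff_of_pos_left hp).1 h2

theorem St.D_step {A R : Matrix n n ℝ} {S : Finset n} (h : St A S R) (a : n) (ha : a ∉ S) :
    D R S = R a a * D (elim R a) (insert a S) :=
  D_elim R S a ha (h.diag_pos a ha).ne'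

end N838.RPC
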