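import Pool.Agent.N838.RPC.Ind

/-!
# The lower bound `2 ^ r`
-/

open Matrix Finset

set_option linter.unusedSectionVars false

namespace N838.RPC

theorem expTrace_ge {r : ℕ} (hr : 1 ≤ r) {ε : ℝ} (h0 : 0 < ε) (h1 : ε < 1) :
    2 ^ r * (ε ^ (4 * r) / 2) ≤ expTrace r (HA r ε) * ((1 + ε ^ 2) / (1 - ε ^ 2)) ^ r := by
  have hPS : PS r 0 (Fin.last r) = ∅ := by
    ext i
    rw [mem_PS]
    constructor
    · rintro ⟨h | h, h2⟩
      · omega
      · exact absurd h h2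
    · intro h
      exact absurd h (Finset.notMem_empty i)
  have hdet : 0 < (HA r ε).det := by
    rw [HA_det]
    refine mul_pos (Finset.prod_pos fun i _ => pow_pos h0 _) (pow_pos h0 _)
  have st : St (HA r ε) (PS r 0 (Fin.last r)) (HA r ε) := by
    rw [hPS]
    exact St.start (HA_psd r ε) hdet
  have h2 := main_ind h0 h1 r 0 (by omega) (Fin.last r) (Or.inr rfl) (HA r ε) st
  have h3 : D (HA r ε) (PS r 0 (Fin.last r))
      = (∏ i ∈ Finset.range r, ε ^ (2 * i)) * ε ^ (4 * r) := by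
    rw [hPS, ← HA_det]
    unfold D
    simp
  rw [h3] at h2
  have h4 : ∏ i ∈ Finset.range r, tb ε (0 + i)
      = 2 * ((1 + ε ^ 2) / (1 - ε ^ 2)) ^ r * ∏ i ∈ Finset.range r, ε ^ (2 * i) := by
    obtain ⟨m, rfl⟩ : ∃ m, r = m + 1 := ⟨r - 1, by omega⟩
    have h5 : ∏ i ∈ Finset.range (m + 1), tb ε (0 + i)
        = (∏ i ∈ Finset.range (m + 1), (if i = 0 then (2 : ℝ) else 1))
          * (∏ i ∈ Finset.range (m + 1), ε ^ (2 * i))
          * ∏ i ∈ Finset.range (m + 1), ((1 + ε ^ 2) / (1 - ε ^ 2)) := by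
      rw [← Finset.prod_mul_distrib, ← Finset.prod_mul_distrib]
      refine Finset.prod_congr rfl fun i _ => ?_
      unfold tb
      rw [zero_add, pow_mul]
    have h6 : (∏ i ∈ Finset.range (m + 1), (if i = 0 then (2 : ℝ) else 1)) = 2 := by
      rw [Finset.prod_range_succ']
      simp
    rw [h5, h6, Finset.prod_const, Finset.card_range]
    ring
  rw [h4] at h2
  have hP : 0 < ∏ i ∈ Finset.range r, ε ^ (2 * i) := Finset.prod_pos fun i _ => pow_pos h0 _
  have h5 : (∏ i ∈ Finset.range r, ε ^ (2 * i)) * (2 ^ r * ε ^ (4 * r))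
      ≤ (∏ i ∈ Finset.range r, ε ^ (2 * i)) *
        (expTrace r (HA r ε) * (2 * ((1 + ε ^ 2) / (1 - ε ^ 2)) ^ r)) := by
    calc _ = 2 ^ r * ((∏ i ∈ Finset.range r, ε ^ (2 * i)) * ε ^ (4 * r)) := by ring
      _ ≤ _ := h2
      _ = _ := by ring
  have h6 := le_of_mul_le_mul_left h5 hP
  linarith

theorem rayleigh {n : Type*} [Fintype n] [DecidableEq n] {A : Matrix n n ℝ} (hA : A.IsHermitian)
    (μ : ℝ) (h : ∀ i, μ ≤ hA.eigenvalues i) (v : n → ℝ) : μ * (v ⬝ᵥ v) ≤ Q A v := by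
  set U : Matrix n n ℝ := (hA.eigenvectorUnitary : Matrix n n ℝ) with hU
  have hspec : A = U * diagonal (fun i => hA.eigenvalues i) * star U := by
    have := hA.spectral_theorem
    rw [Unitary.conjStarAlgAut_apply] at this
    exact this
  have hUU : U * star U = 1 := Unitary.coe_mul_star_self _
  have hvU : v ᵥ* U = star U *ᵥ v := by
    rw [Matrix.star_eq_conjTranspose, conjTranspose_eq_transpose_of_trivial, mulVec_transpose]
  have e1 : Q A v = ∑ i, hA.eigenvalues i * (star U *ᵥ v) i ^ 2 := by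
    unfold Q
    conv_lhs => rw [hspec]
    rw [← mulVec_mulVec, ← mulVec_mulVec, dotProduct_mulVec, hvU]
    simp only [dotProduct, mulVec_diagonal]
    refine Finset.sum_congr rfl fun i _ => ?_
    ring
  have e2 : v ⬝ᵥ v = ∑ i, (star U *ᵥ v) i ^ 2 := by
    have h3 : v ⬝ᵥ v = (v ᵥ* U) ⬝ᵥ (star U *ᵥ v) := by
      rw [← dotProduct_mulVec, mulVec_mulVec, hUU, one_mulVec]
    rw [h3, hvU]
    simp only [dotProduct, sq]
  rw [e1, e2, Finset.mul_sum]
  exact Finset.sum_le_sum fun i _ => mul_le_mul_of_nonneg_right (h i) (sq_nonneg _)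

theorem tail_eq (r : ℕ) {A : Matrix (Fin (r + 1)) (Fin (r + 1)) ℝ} (hA : A.IsHermitian) :
    tail hA r = hA.eigenvalues₀ ⟨r, by rw [Fintype.card_fin]; exact Nat.lt_succ_self r⟩ := by
  unfold tail
  rw [Finset.sum_eq_single ⟨r, by rw [Fintype.card_fin]; exact Nat.lt_succ_self r⟩]
  · simp
  · intro b _ hb
    have h1 : (b : ℕ) < r + 1 := lt_of_lt_of_eq b.2 (Fintype.card_fin _)
    have h2 : (b : ℕ) ≠ r := fun h => hb (Fin.ext h)
    rw [if_neg (by omega)]
  · intro h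
    exact absurd (Finset.mem_univ _) h

theorem tail_le (r : ℕ) {A : Matrix (Fin (r + 1)) (Fin (r + 1)) ℝ} (hA : A.IsHermitian)
    (v : Fin (r + 1) → ℝ) : tail hA r * (v ⬝ᵥ v) ≤ Q A v := by
  refine rayleigh hA _ (fun i => ?_) v
  rw [tail_eq]
  unfold Matrix.IsHermitian.eigenvalues
  refine hA.eigenvalues₀_antitone ?_
  rw [Fin.le_def]
  have h2 := ((Fintype.equivOfCardEq (Fintype.card_fin _)).symm i : Fin (Fintype.card (Fin (r + 1)))).2
  have h3 : Fintype.card (Fin (r + 1)) = r + 1 := Fintype.card_fin _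
  have h4 : ((Fintype.equivOfCardEq (Fintype.card_fin _)).symm i : Fin (Fintype.card (Fin (r + 1)))).val < r + 1 := by
    omega
  exact Nat.lt_succ_iff.1 h4

theorem tail_nonneg {n : Type*} [Fintype n] [DecidableEq n] {A : Matrix n n ℝ}
    (hA : A.PosSemidef) (r : ℕ) : 0 ≤ tail hA.isHermitian r := by
  unfold tail
  refine Finset.sum_nonneg fun i _ => ?_
  split_ifs
  · have h := hA.eigenvalues_nonneg ((Fintype.equivOfCardEq (Fintype.card_fin _)) i)
    unfold Matrix.IsHermitian.eigenvalues at h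
    rwa [Equiv.symm_apply_apply] at h
  · exact le_rfl

theorem tail_HA_le {r : ℕ} (hr : 1 ≤ r) {ε : ℝ} (h0 : 0 < ε) (h1 : ε < 1)
    (hA : (HA r ε).IsHermitian) : tail hA r ≤ ε ^ (4 * r) / 2 ∨ tail hA r ≤ 0 := by
  rcases le_or_gt (tail hA r) 0 with h | h
  · exact Or.inr h
  left
  have h2 := tail_le r hA (tv r ε r)
  rw [Q_tv r ε r le_rfl] at h2
  have h3 : (∑ i : Fin (r + 1), if r ≤ (i : ℕ) then (ε ^ 4) ^ (i : ℕ) else 0) = ε ^ (4 * r) := by
    rw [Finset.sum_eq_single (Fin.last r)]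
    · simp [← pow_mul]
    · intro b _ hb
      have := Fin.val_lt_last hb
      rw [if_neg (by omega)]
    · intro hh
      exact absurd (Finset.mem_univ _) hh
  rw [h3] at h2
  have h4 : 2 ≤ tv r ε r ⬝ᵥ tv r ε r := by
    have h5 : ∑ s ∈ ({Fin.last r, 0} : Finset (Fin (r + 1))), tv r ε r s * tv r ε r s
        ≤ tv r ε r ⬝ᵥ tv r ε r :=
      Finset.sum_le_sum_of_subset_of_nonneg (Finset.subset_univ _) fun s _ _ => mul_self_nonneg _
    have hne : Fin.last r ≠ 0 := by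
      intro hh
      have := congrArg Fin.val hh
      simp at this
      omega
    rw [Finset.sum_pair hne] at h5
    have h6 : tv r ε r (Fin.last r) = 1 := by unfold tv; simp
    have h7 : tv r ε r 0 = -1 := by
      unfold tv
      rw [if_neg hne.symm]
      have : ((0 : Fin (r + 1)) : ℕ) < r := by
        rw [Fin.val_zero]; omega
      rw [if_pos this]
      simp
    rw [h6, h7] at h5
    linarith
  nlinarith

theorem exists_eps (r : ℕ) (c : ℝ) (hc : c < 2 ^ r) :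
    ∃ ε : ℝ, 0 < ε ∧ ε < 1 ∧ c * ((1 + ε ^ 2) / (1 - ε ^ 2)) ^ r < 2 ^ r := by
  have h1 : ContinuousAt (fun ε : ℝ => c * ((1 + ε ^ 2) / (1 - ε ^ 2)) ^ r) 0 := by
    refine ContinuousAt.mul continuousAt_const (ContinuousAt.pow (ContinuousAt.div ?_ ?_ ?_) r)
    · fun_prop
    · fun_prop
    · norm_num
  have h2 : ∀ᶠ ε : ℝ in nhds 0, c * ((1 + ε ^ 2) / (1 - ε ^ 2)) ^ r < 2 ^ r := by
    refine h1.eventually_lt continuousAt_const ?_
    simpa using hc
  have h3 : ∀ᶠ ε : ℝ in nhdsWithin 0 (Set.Ioi 0), c * ((1 + ε ^ 2) / (1 - ε ^ 2)) ^ r < 2 ^ r :=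
    h2.filter_mono nhdsWithin_le_nhds
  have h4 : ∀ᶠ ε : ℝ in nhdsWithin 0 (Set.Ioi 0), ε ∈ Set.Ioo (0 : ℝ) 1 :=
    Ioo_mem_nhdsGT one_pos
  obtain ⟨ε, h5, h6⟩ := (h3.and h4).exists
  exact ⟨ε, h6.1, h6.2, h5⟩

theorem lower (r : ℕ) (hr : 1 ≤ r) (c : ℝ) (hc : c < 2 ^ r) :
    ∃ (A : Matrix (Fin (r + 1)) (Fin (r + 1)) ℝ) (hA : A.PosSemidef),
      c * tail hA.isHermitian r < expTrace r A := by
  have hc' : max c 0 < 2 ^ r := max_lt hc (by positivity)
  obtain ⟨ε, h0, h1, h2⟩ := exists_eps r (max c 0) hc'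
  have hpsd : (HA r ε).PosSemidef := by
    unfold HA
    have := posSemidef_conjTranspose_mul_self (B r ε)
    rwa [conjTranspose_eq_transpose_of_trivial] at this
  refine ⟨HA r ε, hpsd, ?_⟩
  have h3 := expTrace_ge hr h0 h1
  have h4 : tail hpsd.isHermitian r ≤ ε ^ (4 * r) / 2 := by
    rcases tail_HA_le hr h0 h1 hpsd.isHermitian with h | h
    · exact h
    · have : 0 < ε ^ (4 * r) := pow_pos h0 _
      linarith
  have h5 := tail_nonneg hpsd r
  have hθ : 0 < (1 + ε ^ 2) / (1 - ε ^ 2) := by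
    have : ε ^ 2 < 1 := pow_lt_one₀ h0.le h1 (by norm_num)
    have h6 : 0 < 1 - ε ^ 2 := by linarith
    positivity
  have hθr : 0 < ((1 + ε ^ 2) / (1 - ε ^ 2)) ^ r := pow_pos hθ r
  have hε : 0 < ε ^ (4 * r) / 2 := by
    have : 0 < ε ^ (4 * r) := pow_pos h0 _
    linarith
  have h6 : max c 0 * ((1 + ε ^ 2) / (1 - ε ^ 2)) ^ r * (ε ^ (4 * r) / 2)
      < 2 ^ r * (ε ^ (4 * r) / 2) := mul_lt_mul_of_pos_right h2 hε
  have h7 : (max c 0 * (ε ^ (4 * r) / 2)) * ((1 + ε ^ 2) / (1 - ε ^ 2)) ^ r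
      < expTrace r (HA r ε) * ((1 + ε ^ 2) / (1 - ε ^ 2)) ^ r := by
    calc _ = max c 0 * ((1 + ε ^ 2) / (1 - ε ^ 2)) ^ r * (ε ^ (4 * r) / 2) := by ring
      _ < _ := h6
      _ ≤ _ := h3
  have h8 := lt_of_mul_lt_mul_right h7 hθr.le
  calc c * tail hpsd.isHermitian r ≤ max c 0 * tail hpsd.isHermitian r :=
        mul_le_mul_of_nonneg_right (le_max_left _ _) h5
    _ ≤ max c 0 * (ε ^ (4 * r) / 2) := mul_le_mul_of_nonneg_left h4 (le_max_right _ _)
    _ < _ := h8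

theorem exists_poly_lt (C : Polynomial ℝ) : ∃ r : ℕ, 1 ≤ r ∧ C.eval (r : ℝ) < 2 ^ r := by
  have h1 : Filter.Tendsto (fun r : ℕ => C.eval (r : ℝ) / 2 ^ r) Filter.atTop (nhds 0) := by
    have h2 : (fun r : ℕ => C.eval (r : ℝ) / 2 ^ r)
        = fun r : ℕ => ∑ i ∈ Finset.range (C.natDegree + 1),
          C.coeff i * ((r : ℝ) ^ i / 2 ^ r) := by
      ext r
      rw [Polynomial.eval_eq_sum_range, Finset.sum_div]
      refine Finset.sum_congr rfl fun i _ => ?_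
      ring
    rw [h2]
    have h3 : (0 : ℝ) = ∑ i ∈ Finset.range (C.natDegree + 1), C.coeff i * 0 := by simp
    rw [h3]
    refine tendsto_finsetSum _ fun i _ => ?_
    refine Filter.Tendsto.const_mul _ ?_
    exact tendsto_pow_const_div_const_pow_of_one_lt i (by norm_num : (1 : ℝ) < 2)
  have h4 : ∀ᶠ r : ℕ in Filter.atTop, C.eval (r : ℝ) / 2 ^ r < 1 :=
    h1.eventually_lt tendsto_const_nhds one_pos
  obtain ⟨r, h5, h6⟩ := (h4.and (Filter.eventually_ge_atTop 1)).exists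
  refine ⟨r, h6, ?_⟩
  rwa [div_lt_one (by positivity)] at h5

end N838.RPC
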