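import Pool.Agent.N838.RPC.Mat

/-!
# The induction over the pivots
-/

open Matrix Finset

set_option linter.unusedSectionVars false

namespace N838.RPC

/-- The pivots `{i | i < l} ∪ {last}` without `x`. -/
def PS (r l : ℕ) (x : Fin (r + 1)) : Finset (Fin (r + 1)) :=
  Finset.univ.filter fun i => ((i : ℕ) < l ∨ i = Fin.last r) ∧ i ≠ x

theorem mem_PS {r l : ℕ} {x i : Fin (r + 1)} :
    i ∈ PS r l x ↔ ((i : ℕ) < l ∨ i = Fin.last r) ∧ i ≠ x := by
  unfold PS; simp

/-- The trace bounds. -/
noncomputable def tb (ε : ℝ) (l : ℕ) : ℝ :=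
  (if l = 0 then 2 else 1) * (ε ^ 2) ^ l * ((1 + ε ^ 2) / (1 - ε ^ 2))

theorem diag_x_le {r : ℕ} {ε : ℝ} (h0 : 0 < ε) (h1 : ε < 1) {l : ℕ} (hl : l ≤ r)
    {x : Fin (r + 1)} (hx : (x : ℕ) < l ∨ x = Fin.last r) {R : Matrix (Fin (r + 1)) (Fin (r + 1)) ℝ}
    (h : St (HA r ε) (PS r l x) R) :
    R x x ≤ ((tv r ε l x)⁻¹) ^ 2 * ((ε ^ 4) ^ l / (1 - ε ^ 4)) := by
  have hc : tv r ε l x ≠ 0 := by
    unfold tv
    rcases hx with hx | hx
    · by_cases hl' : x = Fin.last r
      · simp [hl']
      · simp only [hl', hx, if_true, if_false]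
        exact neg_ne_zero.2 (pow_pos h0 _).ne'
    · simp [hx]
  have h2 := h.le (Pi.single x 1) ((tv r ε l x)⁻¹ • tv r ε l - Pi.single x 1) (by
    intro i hi
    rw [mem_PS] at hi
    by_cases hix : i = x
    · subst hix
      simp [hc]
    · have h3 : ¬ ((i : ℕ) < l ∨ i = Fin.last r) := fun h => hi ⟨h, hix⟩
      push Not at h3
      have h4 : tv r ε l i = 0 := by
        unfold tv
        rw [if_neg h3.2, if_neg (by omega)]
      simp [h4, hix])
  rw [Q_single, add_sub_cancel, Q_smul, Q_tv r ε l hl] at h2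
  have h4 : ε ^ 4 < 1 := pow_lt_one₀ h0.le h1 (by norm_num)
  have h5 := geo_fin (ε ^ 4) (by positivity) h4 l (r + 1)
  exact h2.trans (mul_le_mul_of_nonneg_left h5 (sq_nonneg _))

theorem diag_x_le' {r : ℕ} {ε : ℝ} (h0 : 0 < ε) (h1 : ε < 1) {l : ℕ} (hl : l ≤ r)
    {x : Fin (r + 1)} (hx : (x : ℕ) < l ∨ x = Fin.last r) {R : Matrix (Fin (r + 1)) (Fin (r + 1)) ℝ}
    (h : St (HA r ε) (PS r l x) R) :
    R x x ≤ (if l = 0 then 1 else ε ^ 2) * (ε ^ 2) ^ l / (1 - (ε ^ 2) ^ 2) := by
  have h2 := diag_x_le h0 h1 hl hx h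
  have hu1 : ε ^ 2 < 1 := pow_lt_one₀ h0.le h1 (by norm_num)
  have hu0 : 0 < ε ^ 2 := by positivity
  have e4 : ε ^ 4 = (ε ^ 2) ^ 2 := by ring
  rw [e4] at h2
  generalize hu : ε ^ 2 = u at *
  have h4 : 0 < 1 - u ^ 2 := by nlinarith
  rw [← mul_div_assoc] at h2
  refine h2.trans ?_
  refine div_le_div_of_nonneg_right ?_ h4.le
  unfold tv
  by_cases hxl : x = Fin.last r
  · rw [if_pos hxl]
    by_cases hl0 : l = 0
    · subst hl0; simp
    · rw [if_neg hl0, ← pow_succ', ← pow_mul]
      simp only [inv_one, one_pow, one_mul]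
      exact pow_le_pow_of_le_one hu0.le hu1.le (by omega)
  · have hxl' : (x : ℕ) < l := hx.resolve_right hxl
    rw [if_neg hxl, if_pos hxl']
    have hl0 : l ≠ 0 := by omega
    rw [if_neg hl0, inv_pow, neg_sq, ← pow_mul, mul_comm (x : ℕ) 2, pow_mul, hu]
    obtain ⟨d, hd⟩ : ∃ d, l = (x : ℕ) + 1 + d := ⟨l - (x + 1), by omega⟩
    have hp : 0 < u ^ (x : ℕ) := pow_pos hu0 _
    rw [inv_mul_le_iff₀ hp, ← pow_succ', ← pow_mul, ← pow_add]
    exact pow_le_pow_of_le_one hu0.le hu1.le (by omega)

theorem trace_le {r : ℕ} {ε : ℝ} (h0 : 0 < ε) (h1 : ε < 1) {l : ℕ} (hl : l ≤ r)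
    {x : Fin (r + 1)} (hx : (x : ℕ) < l ∨ x = Fin.last r) {R : Matrix (Fin (r + 1)) (Fin (r + 1)) ℝ}
    (h : St (HA r ε) (PS r l x) R) : R.trace ≤ tb ε l := by
  have hu1 : ε ^ 2 < 1 := pow_lt_one₀ h0.le h1 (by norm_num)
  have hu0 : 0 < ε ^ 2 := by positivity
  have hsum : R.trace ≤ (∑ i : Fin (r + 1), if l ≤ (i : ℕ) then (ε ^ 2) ^ (i : ℕ) else 0)
      + R x x := by
    have h2 : ∀ i, R i i ≤ (if l ≤ (i : ℕ) then (ε ^ 2) ^ (i : ℕ) else 0)
        + (if i = x then R x x else 0) := by
      intro i
      have hg : 0 ≤ (if l ≤ (i : ℕ) then (ε ^ 2) ^ (i : ℕ) else 0) := by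
        split_ifs
        · positivity
        · exact le_rfl
      by_cases hix : i = x
      · subst hix
        rw [if_pos rfl]
        linarith
      · rw [if_neg hix, add_zero]
        by_cases h3 : (i : ℕ) < l ∨ i = Fin.last r
        · rw [h.zero i (mem_PS.2 ⟨h3, hix⟩)]
          exact hg
        · push Not at h3
          rw [if_pos h3.1]
          have h4 := h.le (Pi.single i 1) 0 (by simp)
          rw [add_zero, Q_single, Q_HA_single r ε i h3.2] at h4
          exact h4
    calc R.trace = ∑ i, R i i := rfl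
      _ ≤ ∑ i : Fin (r + 1), ((if l ≤ (i : ℕ) then (ε ^ 2) ^ (i : ℕ) else 0)
        + (if i = x then R x x else 0)) := Finset.sum_le_sum fun i _ => h2 i
      _ = _ := by rw [Finset.sum_add_distrib, Finset.sum_ite_eq']; simp
  have h3 := geo_fin (ε ^ 2) hu0 hu1 l (r + 1)
  have h4 := diag_x_le' h0 h1 hl hx h
  unfold tb
  generalize hu : ε ^ 2 = u at *
  have h5 : 0 < 1 - u := by linarith
  have h6 : 0 < 1 - u ^ 2 := by nlinarith
  have h7 : 0 < u ^ l := pow_pos hu0 l
  have h8 : (if l = 0 then (1 : ℝ) else u) * u ^ l / (1 - u ^ 2)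
      ≤ (if l = 0 then (1 : ℝ) else u) * u ^ l / (1 - u) := by
    refine div_le_div_of_nonneg_left ?_ h5 ?_
    · split_ifs <;> positivity
    · nlinarith
  have h9 : u ^ l / (1 - u) + (if l = 0 then (1 : ℝ) else u) * u ^ l / (1 - u)
      ≤ (if l = 0 then 2 else 1) * u ^ l * ((1 + u) / (1 - u)) := by
    rw [← add_div, ← mul_div_assoc]
    refine div_le_div_of_nonneg_right ?_ h5.le
    split_ifs <;> nlinarith
  linarith

theorem main_ind {r : ℕ} {ε : ℝ} (h0 : 0 < ε) (h1 : ε < 1) (k : ℕ) :
    ∀ (l : ℕ) (_ : l + k = r) (x : Fin (r + 1)) (_ : (x : ℕ) < l ∨ x = Fin.last r)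
      (R : Matrix (Fin (r + 1)) (Fin (r + 1)) ℝ) (_ : St (HA r ε) (PS r l x) R),
      2 ^ k * D R (PS r l x) ≤ expTrace k R * ∏ i ∈ Finset.range k, tb ε (l + i) := by
  induction k with
  | zero =>
    intro l hl x hx R h
    simp only [pow_zero, one_mul, Finset.range_zero, Finset.prod_empty, mul_one]
    have hl' : l = r := by omega
    subst hl'
    have hmem : ∀ i, i ≠ x → i ∈ PS l l x := by
      intro i hi
      rw [mem_PS]
      refine ⟨?_, hi⟩
      by_cases h2 : i = Fin.last l
      · exact Or.inr h2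
      · left
        have := Fin.val_lt_last h2
        omega
    have hz : ∀ i j, i ≠ x ∨ j ≠ x → R i j = 0 := by
      rintro i j (hi | hj)
      · exact h.zero i (hmem i hi) j
      · rw [h.psd.sym i j]; exact h.zero j (hmem j hj) i
    have h2 : R + diagonal (fun i => if i ∈ PS l l x then (1 : ℝ) else 0)
        = diagonal (fun i => if i = x then R x x else 1) := by
      ext i j
      rw [Matrix.add_apply, diagonal_apply, diagonal_apply]
      by_cases hij : i = j
      · subst hij
        rw [if_pos rfl, if_pos rfl]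
        by_cases hi : i = x
        · subst hi
          have : i ∉ PS l l i := by rw [mem_PS]; simp
          simp [this]
        · rw [hz i i (Or.inl hi), if_pos (hmem i hi), if_neg hi, zero_add]
      · rw [if_neg hij, if_neg hij, add_zero]
        refine hz i j ?_
        by_contra hcon
        push Not at hcon
        exact hij (hcon.1.trans hcon.2.symm)
    unfold D
    rw [h2, det_diagonal]
    have h3 : (∏ i, if i = x then R x x else 1) = R x x := by
      rw [Finset.prod_ite_eq']; simp
    rw [h3]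
    unfold expTrace Matrix.trace
    have h4 : (∑ i, Matrix.diag R i) = R x x := by
      rw [Finset.sum_eq_single x]
      · rfl
      · intro b _ hb
        exact hz b b (Or.inl hb)
      · intro hh
        exact absurd (Finset.mem_univ _) hh
    rw [h4]
  | succ k ih =>
    intro l hl x hx R h
    have hlr : l < r := by omega
    have hx' : x ∉ PS r l x := by rw [mem_PS]; simp
    obtain ⟨y, hy⟩ : ∃ y : Fin (r + 1), (y : ℕ) = l := ⟨⟨l, by omega⟩, rfl⟩
    have hyl : y ≠ Fin.last r := by
      intro hh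
      rw [hh, Fin.val_last] at hy
      omega
    have hy' : y ∉ PS r l x := by
      rw [mem_PS]
      rintro ⟨h2 | h2, _⟩
      · omega
      · exact hyl h2
    have hxy : x ≠ y := by
      rintro rfl
      rcases hx with h2 | h2
      · omega
      · exact hyl h2
    have hiff : ∀ i : Fin (r + 1), (i : ℕ) < l + 1 ↔ ((i : ℕ) < l ∨ i = y) := by
      intro i
      rw [Fin.ext_iff, hy]
      omega
    have s1 : insert x (PS r l x) = PS r (l + 1) y := by
      ext i
      rw [Finset.mem_insert, mem_PS, mem_PS, hiff]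
      constructor
      · rintro (rfl | ⟨h2, h3⟩)
        · refine ⟨?_, hxy⟩
          rcases hx with h2 | h2
          · exact Or.inl (Or.inl h2)
          · exact Or.inr h2
        · refine ⟨?_, ?_⟩
          · rcases h2 with h2 | h2
            · exact Or.inl (Or.inl h2)
            · exact Or.inr h2
          · rintro rfl
            rcases h2 with h2 | h2
            · omega
            · exact hyl h2
      · rintro ⟨(h2 | h2) | h2, h3⟩
        · by_cases hix : i = x
          · exact Or.inl hix
          · exact Or.inr ⟨Or.inl h2, hix⟩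
        · exact absurd h2 h3
        · by_cases hix : i = x
          · exact Or.inl hix
          · exact Or.inr ⟨Or.inr h2, hix⟩
    have s2 : insert y (PS r l x) = PS r (l + 1) x := by
      ext i
      rw [Finset.mem_insert, mem_PS, mem_PS, hiff]
      constructor
      · rintro (rfl | ⟨h2, h3⟩)
        · exact ⟨Or.inl (Or.inr rfl), hxy.symm⟩
        · refine ⟨?_, h3⟩
          rcases h2 with h2 | h2
          · exact Or.inl (Or.inl h2)
          · exact Or.inr h2
      · rintro ⟨(h2 | h2) | h2, h3⟩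
        · exact Or.inr ⟨Or.inl h2, h3⟩
        · exact Or.inl h2
        · exact Or.inr ⟨Or.inr h2, h3⟩
    have st1 := h.step x hx'
    have st2 := h.step y hy'
    have d1 := h.D_step x hx'
    have d2 := h.D_step y hy'
    have px := h.diag_pos x hx'
    have py := h.diag_pos y hy'
    rw [s1] at st1 d1
    rw [s2] at st2 d2
    have i1 := ih (l + 1) (by omega) y (Or.inl (by omega)) _ st1
    have i2 := ih (l + 1) (by omega) x (by
      rcases hx with h2 | h2
      · exact Or.inl (by omega)
      · exact Or.inr h2) _ st2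
    set P := ∏ i ∈ Finset.range k, tb ε (l + 1 + i) with hP
    have hu1 : ε ^ 2 < 1 := pow_lt_one₀ h0.le h1 (by norm_num)
    have hu0 : 0 < ε ^ 2 := by positivity
    have htb : ∀ j, 0 < tb ε j := by
      intro j
      unfold tb
      have h2 : 0 < 1 - ε ^ 2 := by linarith
      have h3 : 0 < (if j = 0 then (2 : ℝ) else 1) := by split_ifs <;> norm_num
      positivity
    have hPpos : 0 < P := Finset.prod_pos fun j _ => htb _
    have htr : R.trace ≤ tb ε l := trace_le h0 h1 (by omega) hx h
    have htr0 : 0 < R.trace := by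
      have h2 : R x x ≤ R.trace :=
        Finset.single_le_sum (f := fun i => R i i) (fun i _ => h.psd.diag i) (Finset.mem_univ x)
      linarith
    have hE : R x x * expTrace k (elim R x) + R y y * expTrace k (elim R y)
        ≤ expTrace (k + 1) R * R.trace := by
      have h2 : expTrace (k + 1) R = ∑ s, (R s s / R.trace) * expTrace k (elim R s) := by
        conv_lhs => unfold expTrace
        rw [if_neg htr0.ne']
      have h3 : expTrace (k + 1) R * R.trace = ∑ s, R s s * expTrace k (elim R s) := by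
        rw [h2, Finset.sum_mul]
        refine Finset.sum_congr rfl fun s _ => ?_
        field_simp
      rw [h3]
      have h4 : ∑ s ∈ ({x, y} : Finset (Fin (r + 1))), R s s * expTrace k (elim R s)
          = R x x * expTrace k (elim R x) + R y y * expTrace k (elim R y) :=
        Finset.sum_pair hxy
      rw [← h4]
      refine Finset.sum_le_sum_of_subset_of_nonneg (Finset.subset_univ _) fun s _ _ => ?_
      rcases (h.psd.diag s).eq_or_lt with h5 | h5
      · rw [← h5]; simp
      · exact mul_nonneg h5.le (expTrace_nonneg k _ (h.psd.elim s h5))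
    have hprod : ∏ i ∈ Finset.range (k + 1), tb ε (l + i) = P * tb ε l := by
      rw [Finset.prod_range_succ', hP]
      congr 1
      refine Finset.prod_congr rfl fun i _ => ?_
      congr 1
      omega
    rw [hprod]
    have hE0 : 0 ≤ expTrace (k + 1) R := expTrace_nonneg _ _ h.psd
    have j1 : 2 ^ k * D R (PS r l x) ≤ R x x * expTrace k (elim R x) * P := by
      rw [d1]
      calc 2 ^ k * (R x x * D (elim R x) (PS r (l + 1) y))
          = R x x * (2 ^ k * D (elim R x) (PS r (l + 1) y)) := by ring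
        _ ≤ R x x * (expTrace k (elim R x) * P) := mul_le_mul_of_nonneg_left i1 px.le
        _ = _ := by ring
    have j2 : 2 ^ k * D R (PS r l x) ≤ R y y * expTrace k (elim R y) * P := by
      rw [d2]
      calc 2 ^ k * (R y y * D (elim R y) (PS r (l + 1) x))
          = R y y * (2 ^ k * D (elim R y) (PS r (l + 1) x)) := by ring
        _ ≤ R y y * (expTrace k (elim R y) * P) := mul_le_mul_of_nonneg_left i2 py.le
        _ = _ := by ring
    calc 2 ^ (k + 1) * D R (PS r l x) = 2 ^ k * D R (PS r l x) + 2 ^ k * D R (PS r l x) := by ring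
      _ ≤ R x x * expTrace k (elim R x) * P + R y y * expTrace k (elim R y) * P := add_le_add j1 j2
      _ = (R x x * expTrace k (elim R x) + R y y * expTrace k (elim R y)) * P := by ring
      _ ≤ (expTrace (k + 1) R * R.trace) * P := mul_le_mul_of_nonneg_right hE hPpos.le
      _ ≤ (expTrace (k + 1) R * tb ε l) * P :=
        mul_le_mul_of_nonneg_right (mul_le_mul_of_nonneg_left htr hE0) hPpos.le
      _ = expTrace (k + 1) R * (P * tb ε l) := by ring

end N838.RPC
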