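import Pool.Agent.N838.RPC.Basic

/-!
# The hard instance
-/

open Matrix Finset

set_option linter.unusedSectionVars false

namespace N838.RPC

/-- The upper triangular factor. -/
noncomputable def B (r : ℕ) (ε : ℝ) : Matrix (Fin (r + 1)) (Fin (r + 1)) ℝ :=
  Matrix.of fun i j => if j = Fin.last r then ε ^ (2 * (i : ℕ)) else
    if i = j then ε ^ (i : ℕ) else 0

/-- The hard instance. -/
noncomputable def HA (r : ℕ) (ε : ℝ) : Matrix (Fin (r + 1)) (Fin (r + 1)) ℝ := (B r ε)ᵀ * B r ε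

theorem B_mulVec (r : ℕ) (ε : ℝ) (y : Fin (r + 1) → ℝ) (i : Fin (r + 1)) :
    (B r ε *ᵥ y) i = ε ^ (2 * (i : ℕ)) * y (Fin.last r)
      + (if i = Fin.last r then 0 else ε ^ (i : ℕ) * y i) := by
  have h : ∀ j : Fin (r + 1), B r ε i j * y j
      = (if j = Fin.last r then ε ^ (2 * (i : ℕ)) * y j else 0)
        + (if i = j then (if i = Fin.last r then 0 else ε ^ (i : ℕ) * y j) else 0) := by
    intro j
    unfold B
    simp only [Matrix.of_apply]
    by_cases h1 : j = Fin.last r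
    · by_cases h2 : i = j
      · have h3 : i = Fin.last r := h2.trans h1
        rw [if_pos h1, if_pos h1, if_pos h2, if_pos h3, add_zero]
      · rw [if_pos h1, if_pos h1, if_neg h2, add_zero]
    · by_cases h2 : i = j
      · have h3 : i ≠ Fin.last r := fun h => h1 (h2 ▸ h)
        rw [if_neg h1, if_neg h1, if_pos h2, if_pos h2, if_neg h3, zero_add]
      · rw [if_neg h1, if_neg h1, if_neg h2, if_neg h2]
        ring
  simp only [mulVec, dotProduct, h]
  rw [Finset.sum_add_distrib, Finset.sum_ite_eq', Finset.sum_ite_eq]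
  simp

theorem Q_HA (r : ℕ) (ε : ℝ) (y : Fin (r + 1) → ℝ) :
    Q (HA r ε) y = ∑ i, (B r ε *ᵥ y) i ^ 2 := by
  unfold Q HA
  rw [← mulVec_mulVec, dotProduct_mulVec, vecMul_transpose]
  simp [dotProduct, sq]

theorem HA_psd (r : ℕ) (ε : ℝ) : Psd (HA r ε) := by
  refine ⟨fun i j => ?_, fun y => ?_⟩
  · unfold HA
    simp only [Matrix.mul_apply, Matrix.transpose_apply]
    exact Finset.sum_congr rfl fun k _ => mul_comm _ _
  · rw [Q_HA]
    exact Finset.sum_nonneg fun i _ => sq_nonneg _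

theorem HA_det (r : ℕ) (ε : ℝ) :
    (HA r ε).det = (∏ i ∈ Finset.range r, ε ^ (2 * i)) * ε ^ (4 * r) := by
  unfold HA
  rw [det_mul, det_transpose]
  have h : (B r ε).det = (∏ i ∈ Finset.range r, ε ^ i) * ε ^ (2 * r) := by
    rw [det_of_isUpperTriangular]
    · rw [Fin.prod_univ_castSucc, ← Fin.prod_univ_eq_prod_range (fun i => ε ^ i) r]
      congr 1
      · refine Finset.prod_congr rfl fun i _ => ?_
        unfold B
        have : i.castSucc ≠ Fin.last r := (Fin.castSucc_lt_last i).ne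
        simp [this]
      · unfold B
        simp
    · intro i j hij
      unfold B
      have h1 : j ≠ Fin.last r := by
        rintro rfl
        exact absurd (Fin.le_last i) (not_le.2 hij)
      have h2 : i ≠ j := (ne_of_lt hij).symm
      simp [h1, h2]
  rw [h]
  have h2 : (∏ i ∈ Finset.range r, ε ^ (2 * i)) = (∏ i ∈ Finset.range r, ε ^ i) ^ 2 := by
    rw [← Finset.prod_pow]
    refine Finset.prod_congr rfl fun i _ => ?_
    rw [← pow_mul, mul_comm]
  rw [h2]
  ring

/-- geometric sums -/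
theorem geo (u : ℝ) (l N : ℕ) :
    (1 - u) * (∑ i ∈ Finset.range N, if l ≤ i then u ^ i else 0)
      = if l ≤ N then u ^ l - u ^ N else 0 := by
  induction N with
  | zero =>
    by_cases h : l ≤ 0
    · have : l = 0 := by omega
      subst this; simp
    · simp [h]
  | succ N ih =>
    rw [Finset.sum_range_succ, mul_add, ih]
    by_cases h : l ≤ N
    · rw [if_pos h, if_pos h, if_pos (by omega)]
      ring
    · by_cases h' : l ≤ N + 1
      · have : l = N + 1 := by omega
        subst this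
        simp
      · simp [h, h']

theorem geo_le (u : ℝ) (h0 : 0 < u) (h1 : u < 1) (l N : ℕ) :
    (∑ i ∈ Finset.range N, if l ≤ i then u ^ i else 0) ≤ u ^ l / (1 - u) := by
  have h := geo u l N
  have h2 : 0 < 1 - u := by linarith
  rw [le_div_iff₀ h2, mul_comm, h]
  split_ifs
  · have : 0 < u ^ N := pow_pos h0 N
    linarith
  · exact (pow_pos h0 l).le

theorem geo_fin (u : ℝ) (h0 : 0 < u) (h1 : u < 1) (l N : ℕ) :
    (∑ i : Fin N, if l ≤ (i : ℕ) then u ^ (i : ℕ) else 0) ≤ u ^ l / (1 - u) := by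
  rw [Fin.sum_univ_eq_sum_range (fun i => if l ≤ i then u ^ i else 0) N]
  exact geo_le u h0 h1 l N

/-- The test vectors. -/
noncomputable def tv (r : ℕ) (ε : ℝ) (l : ℕ) : Fin (r + 1) → ℝ := fun i =>
  if i = Fin.last r then 1 else if (i : ℕ) < l then - ε ^ (i : ℕ) else 0

theorem B_tv (r : ℕ) (ε : ℝ) (l : ℕ) (hl : l ≤ r) (i : Fin (r + 1)) :
    (B r ε *ᵥ tv r ε l) i = if l ≤ (i : ℕ) then ε ^ (2 * (i : ℕ)) else 0 := by
  rw [B_mulVec]
  unfold tv
  by_cases h1 : i = Fin.last r
  · subst h1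
    simp [hl]
  · by_cases h2 : (i : ℕ) < l
    · have h3 : ¬ l ≤ (i : ℕ) := by omega
      simp only [h1, h2, h3, if_true, if_false]
      ring
    · have h3 : l ≤ (i : ℕ) := by omega
      simp only [h1, h2, h3, if_true, if_false]
      ring

theorem Q_tv (r : ℕ) (ε : ℝ) (l : ℕ) (hl : l ≤ r) :
    Q (HA r ε) (tv r ε l) = ∑ i : Fin (r + 1), if l ≤ (i : ℕ) then (ε ^ 4) ^ (i : ℕ) else 0 := by
  rw [Q_HA]
  refine Finset.sum_congr rfl fun i _ => ?_
  rw [B_tv r ε l hl]
  split_ifs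
  · rw [← pow_mul, ← pow_mul]
    congr 1
    ring
  · simp

theorem Q_smul {n : Type*} [Fintype n] [DecidableEq n] (R : Matrix n n ℝ) (c : ℝ) (y : n → ℝ) :
    Q R (c • y) = c ^ 2 * Q R y := by
  unfold Q
  rw [mulVec_smul, smul_dotProduct, dotProduct_smul, smul_eq_mul, smul_eq_mul]
  ring

theorem Q_HA_single (r : ℕ) (ε : ℝ) (i : Fin (r + 1)) (hi : i ≠ Fin.last r) :
    Q (HA r ε) (Pi.single i 1) = (ε ^ 2) ^ (i : ℕ) := by
  rw [Q_HA, Finset.sum_eq_single i]
  · rw [B_mulVec]
    have h : (Fin.last r) ≠ i := Ne.symm hi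
    simp [hi, h]
    rw [← pow_mul, ← pow_mul, mul_comm]
  · intro j _ hj
    rw [B_mulVec]
    have h : (Fin.last r) ≠ i := Ne.symm hi
    simp [hj, h]
  · intro h
    exact absurd (Finset.mem_univ _) h

end N838.RPC
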